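import Pool.Agent.Work.MP_3125f4_gt.G.Chars

/-!
# MP_3125f4_gt : the closure criterion in its general form
-/

open Set Cardinal Topology Filter

universe u

namespace MP3125f4

variable {X : Type u} [TopologicalSpace X]

theorem closure_criterion [T1Space X] [NormalSpace X] [FirstCountableTopology X]
    (hCL : CellularLindelof X) {Z : Set X} (hZ : Dense Z) {ν θ : Cardinal.{u}} (har : Arith ν θ)
    (hK : ∀ D ⊆ Z, DisjSep D → #D < ν → LindelofLE (closure D) ν ∨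
      #{e : C(closure D, ℝ) →+* ℝ | Approximable ν (closure D) e} ≤ θ) :
    #X ≤ θ := by
  classical
  have hT4 : T4Space X := {}
  by_contra hX
  push Not at hX
  obtain ⟨B, hB1, hB2, hB3, hB4⟩ := exists_base' X
  -- the family attached to a small set
  have hE : ∀ D : Set X, ∃ ℰ : Set (Set X), #ℰ ≤ θ ∧ (∀ G ∈ ℰ, IsOpen G) ∧
      (#D < ν → #{e : C(closure D, ℝ) →+* ℝ | Approximable ν (closure D) e} ≤ θ →
      ∀ (𝒢 : Set (Set X)), ℰ ⊆ 𝒢 →
        (∀ y ∈ closure D, ∀ V ∈ 𝓝 y, ∃ G ∈ 𝒢, y ∈ G ∧ G ⊆ V ∧ IsOpen G) →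
        ∀ p ∉ closure D, ∃ N ∈ 𝓝 p, ∃ 𝒞 ⊆ 𝒢, #𝒞 ≤ ν ∧ closure D ⊆ ⋃₀ 𝒞 ∧
          ∀ C ∈ 𝒞, Disjoint C N) := by
    intro D
    by_cases h : #D < ν ∧ #{e : C(closure D, ℝ) →+* ℝ | Approximable ν (closure D) e} ≤ θ
    · obtain ⟨ℰ, h1, h2, h3⟩ := exists_family har (isClosed_closure (s := D))
        (har.mk_cont_le h.1) h.2
      exact ⟨ℰ, h1, h2, fun _ _ => h3⟩
    · refine ⟨∅, by simp, by simp, fun h1 h2 => absurd ⟨h1, h2⟩ h⟩
  choose ℰ hE1 hE2 hE3 using hE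
  -- all open sets attached to D
  let 𝒮 : Set X → Set (Set X) := fun D => insert ∅ (ℰ D ∪ ⋃ y : D, ⋃ n : ULift.{u} ℕ, {B y n.down})
  have h𝒮open : ∀ D, ∀ G ∈ 𝒮 D, IsOpen G := by
    rintro D G (rfl | hG | hG)
    · exact isOpen_empty
    · exact hE2 D G hG
    · simp only [mem_iUnion, mem_singleton_iff] at hG
      obtain ⟨y, n, rfl⟩ := hG
      exact hB1 _ _
  have hN : #(ULift.{u} ℕ) ≤ θ := by simpa using har.aleph0_le
  have h𝒮card : ∀ D : Set X, #D < ν → #(𝒮 D) ≤ θ := by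
    intro D hD
    refine mk_insert_le.trans ?_
    refine add_le_of_le har.aleph0_le ?_ har.one_le
    refine har.union_le (hE1 D) ?_
    refine har.iUnion_le (hD.le.trans har.nu_le) fun y => har.iUnion_le hN fun n => ?_
    rw [mk_singleton]
    exact har.one_le
  -- everything attached to subsets of A
  let 𝒯 : Set X → Set (Set X) := fun A => ⋃ D : {D : Set X | D ⊆ A ∧ #D < ν}, 𝒮 D
  have h𝒯card : ∀ A : Set X, #A ≤ θ → #(𝒯 A) ≤ θ := by
    intro A hA
    exact har.iUnion_le (har.mk_small_subsets A hA) fun D => h𝒮card D D.2.2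
  -- witnesses
  have hw0 : ∀ S : Set X, ∃ x : X, closure S ≠ Set.univ → x ∈ Z ∧ x ∉ closure S := by
    intro S
    by_cases h : closure S = Set.univ
    · have : Nonempty X := by
        by_contra hne
        rw [not_nonempty_iff] at hne
        rw [mk_eq_zero X] at hX
        exact absurd hX (not_lt.2 zero_le)
      exact ⟨Classical.arbitrary X, fun h' => absurd h h'⟩
    · obtain ⟨x, hx⟩ := (ne_univ_iff_exists_notMem _).1 h
      obtain ⟨z, hz1, hz2⟩ := hZ.inter_open_nonempty _ isClosed_closure.isOpen_compl ⟨x, hx⟩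
      exact ⟨z, fun _ => ⟨hz2, hz1⟩⟩
  choose w hw using hw0
  -- the operation
  let Φ : Set X → Set X := fun A => closure A ∪
    (fun 𝒱 : Set (Set X) => w (⋃₀ 𝒱)) '' {𝒱 : Set (Set X) | 𝒱 ⊆ 𝒯 A ∧ #𝒱 < ν}
  have hΦ : ∀ A : Set X, #A < ν → #(Φ A) ≤ θ := by
    intro A hA
    have hA' : #A ≤ θ := hA.le.trans har.nu_le
    refine har.union_le (har.mk_closure_le hA') ?_
    exact mk_image_le.trans (har.mk_small_subsets _ (h𝒯card A hA'))
  obtain ⟨Y, hYcard, hYcl⟩ := har.close_off Φ hΦ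
  -- a point outside
  obtain ⟨p, hp⟩ : ∃ p, p ∉ Y := by
    by_contra h
    push Not at h
    have : Y = Set.univ := eq_univ_of_forall h
    rw [this, mk_univ] at hYcard
    exact absurd hYcard (not_le.2 hX)
  let 𝒢 : Set (Set X) := 𝒯 Y
  have hcY : ∀ A ⊆ Y, #A < ν → closure A ⊆ Y := fun A hA hAκ =>
    subset_union_left.trans (hYcl A hA hAκ)
  have hYclosed : IsClosed Y := by
    apply isClosed_of_closure_subset
    intro x hx
    obtain ⟨u, hu1, hu2⟩ := mem_closure_iff_seq_limit.1 hx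
    have h1 : range u ⊆ Y := range_subset_iff.2 hu1
    have h2 : #(range u) < ν := lt_of_le_of_lt (countable_range u).le_aleph0 har.unc
    exact hcY _ h1 h2 (mem_closure_of_tendsto hu2
      (Filter.Eventually.of_forall fun n => mem_range_self n))
  have h𝒢open : ∀ G ∈ 𝒢, IsOpen G := by
    intro G hG
    obtain ⟨D, hD⟩ := mem_iUnion.1 hG
    exact h𝒮open _ G hD
  have hempty : ∅ ∈ 𝒢 := by
    refine mem_iUnion.2 ⟨⟨∅, empty_subset _, by simpa using har.reg.pos⟩, Or.inl rfl⟩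
  have hone : (1 : Cardinal.{u}) < ν := one_lt_aleph0.trans_le har.reg.aleph0_le
  have hBY : ∀ y ∈ Y, ∀ V ∈ 𝓝 y, ∃ G ∈ 𝒢, y ∈ G ∧ G ⊆ V := by
    intro y hy V hV
    obtain ⟨n, hn⟩ := hB4 y V hV
    refine ⟨B y n, mem_iUnion.2 ⟨⟨{y}, singleton_subset_iff.2 hy, by rw [mk_singleton]; exact hone⟩,
      Or.inr (Or.inr ?_)⟩, hB2 y n, hn⟩
    exact mem_iUnion.2 ⟨⟨y, rfl⟩, mem_iUnion.2 ⟨⟨n⟩, rfl⟩⟩
  have hpY : p ∉ closure (Y ∩ Z) := fun h =>
    hp (closure_minimal inter_subset_left hYclosed h)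
  refine core hCL har.reg har.unc (Y ∩ Z) 𝒢 h𝒢open hempty
    (fun y hy V hV => hBY y hy.1 V hV) ?_ p hpY ?_
  · -- witnesses
    intro 𝒱 h𝒱 h𝒱κ hne
    choose D hD using fun V : 𝒱 => mem_iUnion.1 (h𝒱 V.2)
    have hAκ : #(⋃ V : 𝒱, (D V : Set X)) < ν := by
      rw [card_iUnion_lt_iff_forall_of_isRegular har.reg h𝒱κ]
      exact fun V => (D V).2.2
    have hAY : (⋃ V : 𝒱, (D V : Set X)) ⊆ Y := iUnion_subset fun V => (D V).2.1
    refine ⟨w (⋃₀ 𝒱), ⟨?_, (hw _ hne).1⟩, (hw _ hne).2⟩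
    apply hYcl _ hAY hAκ
    refine Or.inr ⟨𝒱, ⟨?_, h𝒱κ⟩, rfl⟩
    intro V hV
    refine mem_iUnion.2 ⟨⟨D ⟨V, hV⟩, subset_iUnion (fun V : 𝒱 => (D V : Set X)) ⟨V, hV⟩,
      (D ⟨V, hV⟩).2.2⟩, hD ⟨V, hV⟩⟩
  · -- covers
    intro D hDYZ hDκ hDs
    have hDY : D ⊆ Y := hDYZ.trans inter_subset_left
    have hclY : closure D ⊆ Y := hcY D hDY hDκ
    rcases hK D (hDYZ.trans inter_subset_right) hDs hDκ with h | h
    · -- Lindelöf degree at most ν
      obtain ⟨C, ⟨hC1, hC2⟩, hC3⟩ := (closed_nhds_basis p).mem_iff.1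
        (hYclosed.isOpen_compl.mem_nhds hp)
      obtain ⟨𝒞, h1, h2, h3⟩ := h {G | G ∈ 𝒢 ∧ Disjoint G C} (fun G hG => h𝒢open G hG.1) (by
        intro x hx
        have hxC : Cᶜ ∈ 𝓝 x := hC2.isOpen_compl.mem_nhds fun h' => hC3 h' (hclY hx)
        obtain ⟨G, hG1, hG2, hG3⟩ := hBY x (hclY hx) _ hxC
        refine ⟨G, ⟨hG1, ?_⟩, hG2⟩
        rw [Set.disjoint_left]
        exact fun z hz hz' => hG3 hz hz')
      exact ⟨C, hC1, 𝒞, fun G hG => (h1 hG).1, h2, h3, fun G hG => (h1 hG).2⟩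
    · exact hE3 D hDκ h 𝒢
        (fun G hG => mem_iUnion.2 ⟨⟨D, hDY, hDκ⟩, Or.inr (Or.inl hG)⟩)
        (fun y hy V hV => by
          obtain ⟨G, hG1, hG2, hG3⟩ := hBY y (hclY hy) V hV
          exact ⟨G, hG1, hG2, hG3, h𝒢open G hG1⟩) p (fun h' => hp (hclY h'))

/-- `ν`-approximable characters are few if there are no large families of functions with few
restrictions to small sets. -/
theorem mk_approximable_le [T2Space X] [FirstCountableTopology X] {ν θ : Cardinal.{u}}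
    (har : Arith ν θ) {D : Set X} (hD : #D < ν)
    (hKur : ∀ (I : Type u) (F : Set (I → ℝ)), #I ≤ θ →
      (∀ S : Set I, #S ≤ ν → #(Set.range fun f : F => fun i : S => f.1 i) ≤ θ) → #F ≤ θ) :
    #{e : C(closure D, ℝ) →+* ℝ | Approximable ν (closure D) e} ≤ θ := by
  classical
  let I : Type u := C(closure D, ℝ)
  let A : Set (C(closure D, ℝ) →+* ℝ) := {e | Approximable ν (closure D) e}
  let F : Set (I → ℝ) := (fun e : C(closure D, ℝ) →+* ℝ => (fun f => e f : I → ℝ)) '' A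
  have hinj : Function.Injective
      (fun e : C(closure D, ℝ) →+* ℝ => (fun f => e f : I → ℝ)) := by
    intro e e' h
    ext f
    exact congrFun h f
  have h1 : #A = #F := (mk_image_eq hinj).symm
  change #A ≤ θ
  rw [h1]
  refine hKur I F (har.mk_cont_le hD) fun S hS => ?_
  -- the restriction of a character to `S` is a limit along a sequence of points
  have h2 : (Set.range fun f : F => fun i : S => f.1 i) ⊆
      Set.range fun y : ℕ → (closure D : Set X) =>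
        fun i : S => limUnder atTop (fun k => (i : C(closure D, ℝ)) (y k)) := by
    rintro _ ⟨⟨_, e, he, rfl⟩, rfl⟩
    obtain ⟨y, hy⟩ := he S hS
    refine ⟨y, ?_⟩
    funext i
    exact (hy i.1 i.2).limUnder_eq
  refine (mk_le_mk_of_subset h2).trans ?_
  refine mk_range_le.trans ?_
  have h3 : #(ℕ → (closure D : Set X)) = #(closure D : Set X) ^ (ℵ₀ : Cardinal.{u}) := by simp
  rw [h3]
  exact (power_le_power_right (har.mk_closure_le (hD.le.trans har.nu_le))).trans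
    (har.pow _ har.unc)

end MP3125f4
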