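import Pool.Agent.Work.MP_3125f4_gt.Card

/-!
# MP_3125f4_gt : cardinal arithmetic and closing-off, general form
(closing-off adapted from `Close.lean` of helper83)
-/

open Set Cardinal Topology Filter

universe u

namespace MP3125f4

/-- The standing assumption on the cardinals `ν` and `θ`: `ν` is regular uncountable, `θ ≥ 2` and
`θ ^ μ ≤ θ` for all `μ < ν`. -/
structure Arith (ν θ : Cardinal.{u}) : Prop where
  reg : ν.IsRegular
  unc : ℵ₀ < ν
  two : 2 ≤ θ
  pow : ∀ μ < ν, θ ^ μ ≤ θ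

namespace Arith

variable {ν θ : Cardinal.{u}} (h : Arith ν θ)

include h

theorem cont_le : 𝔠 ≤ θ := by
  rw [← two_power_aleph0]
  exact (power_le_power_right h.two).trans (h.pow _ h.unc)

theorem aleph0_le : ℵ₀ ≤ θ := aleph0_le_continuum.trans h.cont_le

theorem nu_le : ν ≤ θ := by
  by_contra hcon
  rw [not_le] at hcon
  have h3 := h.pow θ hcon
  have h4 : (2 : Cardinal.{u}) ^ θ ≤ θ ^ θ := power_le_power_right h.two
  exact absurd (h4.trans h3) (not_le.2 (cantor θ))

theorem mul_self : θ * θ = θ := mul_eq_self h.aleph0_le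

theorem add_self : θ + θ = θ := add_eq_self h.aleph0_le

theorem one_le : 1 ≤ θ := one_le_aleph0.trans h.aleph0_le

theorem union_le {α : Type u} {A B : Set α} (hA : #A ≤ θ) (hB : #B ≤ θ) :
    #(A ∪ B : Set α) ≤ θ :=
  (mk_union_le _ _).trans ((add_le_add hA hB).trans h.add_self.le)

theorem iUnion_le {ι : Type u} {α : Type u} {A : ι → Set α} (hι : #ι ≤ θ)
    (hA : ∀ i, #(A i) ≤ θ) : #(⋃ i, A i) ≤ θ := by
  refine (Cardinal.mk_iUnion_le _).trans ?_
  calc _ ≤ θ * θ := by
        gcongr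
        exact ciSup_le' hA
    _ = θ := h.mul_self

theorem prod_le {α β : Type u} (hα : #α ≤ θ) (hβ : #β ≤ θ) : #(α × β) ≤ θ := by
  rw [mk_prod, lift_id, lift_id]
  exact (mul_le_mul' hα hβ).trans h.mul_self.le

theorem mk_index : #ν.ord.ToType ≤ θ := by
  rw [mk_ord_toType]
  exact h.nu_le

theorem mk_small_subsets {X : Type u} (S : Set X) (hS : #S ≤ θ) :
    #{A : Set X | A ⊆ S ∧ #A < ν} ≤ θ := by
  have hcov : {A : Set X | A ⊆ S ∧ #A < ν} ⊆
      ⋃ i : ν.ord.ToType, {A : Set X | A ⊆ S ∧ #A ≤ #(Iio i)} := by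
    rintro A ⟨hAS, hA⟩
    obtain ⟨i, hi⟩ := exists_mk_Iio_eq hA
    exact mem_iUnion.2 ⟨i, hAS, hi.ge⟩
  refine (mk_le_mk_of_subset hcov).trans ?_
  refine h.iUnion_le h.mk_index fun i => ?_
  refine (mk_bounded_subset_le S (#(Iio i))).trans ?_
  have h2 : max (#S) ℵ₀ ≤ θ := max_le hS h.aleph0_le
  exact (power_le_power_right h2).trans (h.pow _ (mk_Iio_lt' _ i))

/-- Closing off under an operation on small sets. -/
theorem close_off {X : Type u} (Φ : Set X → Set X) (hΦ : ∀ A : Set X, #A < ν → #(Φ A) ≤ θ) :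
    ∃ Y : Set X, #Y ≤ θ ∧ ∀ A ⊆ Y, #A < ν → Φ A ⊆ Y := by
  classical
  obtain ⟨Z, hZ⟩ := exists_rec (I := ν.ord.ToType) (X := Set X)
    (fun i Z T => T = ⋃ A : {A : Set X | A ⊆ (⋃ j : Iio i, Z j) ∧ #A < ν}, Φ A)
    (by
      intro i f g hfg T hT
      have : (⋃ j : Iio i, f j) = ⋃ j : Iio i, g j := by
        apply iUnion_congr
        intro j
        exact hfg j j.2
      rw [hT, this])
    (fun i f => ⟨_, rfl⟩)
  have hcard : ∀ i, #(Z i) ≤ θ := by
    intro i
    induction i using WellFoundedLT.induction with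
    | _ i ih =>
      rw [hZ i]
      have h1 : #(⋃ j : Iio i, Z j) ≤ θ :=
        h.iUnion_le ((mk_Iio_lt' _ i).le.trans h.nu_le) fun j => ih j j.2
      exact h.iUnion_le (h.mk_small_subsets _ h1) fun A => hΦ _ A.2.2
  refine ⟨⋃ i, Z i, h.iUnion_le h.mk_index hcard, ?_⟩
  intro A hA hAν
  choose j hj using fun a : A => mem_iUnion.1 (hA a.2)
  obtain ⟨i, hi⟩ := exists_bound h.reg (S := Set.range j) (mk_range_le.trans_lt hAν)
  have hsub : A ⊆ ⋃ k : Iio i, Z k := by
    intro a ha
    exact mem_iUnion.2 ⟨⟨j ⟨a, ha⟩, hi _ ⟨_, rfl⟩⟩, hj ⟨a, ha⟩⟩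
  refine Subset.trans ?_ (subset_iUnion _ i)
  rw [hZ i]
  exact subset_iUnion (fun A : {A : Set X | A ⊆ (⋃ j : Iio i, Z j) ∧ #A < ν} => Φ A)
    ⟨A, hsub, hAν⟩

/-- Closures of small sets have size at most `θ`. -/
theorem mk_closure_le {X : Type u} [TopologicalSpace X] [T2Space X] [FirstCountableTopology X]
    {A : Set X} (hA : #A ≤ θ) : #(closure A : Set X) ≤ θ := by
  have h0 : ∀ y : (closure A : Set X), ∃ s : ℕ → A,
      Tendsto (fun n => (s n : X)) atTop (𝓝 (y : X)) := by
    rintro ⟨y, hy⟩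
    obtain ⟨s, hs, hsy⟩ := mem_closure_iff_seq_limit.1 hy
    exact ⟨fun n => ⟨s n, hs n⟩, hsy⟩
  choose s hs using h0
  have hinj : Function.Injective s := by
    intro y z hyz
    have h1 := hs y
    rw [hyz] at h1
    exact Subtype.ext (tendsto_nhds_unique h1 (hs z))
  refine (mk_le_of_injective hinj).trans ?_
  have : #(ℕ → A) = #A ^ (ℵ₀ : Cardinal.{u}) := by simp
  rw [this]
  exact (power_le_power_right hA).trans (h.pow _ h.unc)

/-- Continuous real functions on the closure of a small set. -/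
theorem mk_cont_le {X : Type u} [TopologicalSpace X] {A : Set X} (hA : #A < ν) :
    #(C(closure A, ℝ)) ≤ θ := by
  have hinj : Function.Injective (fun f : C(closure A, ℝ) =>
      (fun a : A => ULift.up.{u} (f ⟨a, subset_closure a.2⟩))) := by
    intro f g hfg
    apply ContinuousMap.ext
    have hd : Dense {x : closure A | (x : X) ∈ A} := by
      have := (Subtype.dense_iff (s := closure A) (t := {x : closure A | (x : X) ∈ A})).2
      apply this
      have himg : (Subtype.val '' {x : closure A | (x : X) ∈ A}) = A := by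
        ext x
        constructor
        · rintro ⟨y, hy, rfl⟩
          exact hy
        · intro hx
          exact ⟨⟨x, subset_closure hx⟩, hx, rfl⟩
      rw [himg]
    have := Continuous.ext_on hd f.continuous g.continuous (by
      intro x hx
      have h2 := congrFun hfg ⟨x, hx⟩
      simpa using h2)
    exact fun x => congrFun this x
  refine (mk_le_of_injective hinj).trans ?_
  rw [mk_pi]
  simp only [prod_const, lift_id, mk_uLift, mk_real, lift_continuum]
  exact (power_le_power_right h.cont_le).trans (h.pow _ hA)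

end Arith

theorem arith_kap : Arith (kap : Cardinal.{u}) 𝔠 :=
  ⟨isRegular_kap, aleph0_lt_kap, (nat_lt_continuum 2).le, fun _ h => cont_pow_le h⟩

/-- decreasing open bases -/
theorem exists_base' (X : Type u) [TopologicalSpace X] [FirstCountableTopology X] :
    ∃ B : X → ℕ → Set X, (∀ x n, IsOpen (B x n)) ∧ (∀ x n, x ∈ B x n) ∧
      (∀ x, Antitone (B x)) ∧ ∀ x, ∀ V ∈ 𝓝 x, ∃ n, B x n ⊆ V := by
  choose b hb using fun x : X => (𝓝 x).exists_antitone_basis
  refine ⟨fun x n => interior (b x n), fun x n => isOpen_interior, fun x n => ?_,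
    fun x m n h => ?_, fun x V hV => ?_⟩
  · exact mem_interior_iff_mem_nhds.2 ((hb x).1.mem_of_mem trivial)
  · exact interior_mono ((hb x).2 h)
  · obtain ⟨n, -, hn⟩ := (hb x).1.mem_iff.1 hV
    exact ⟨n, interior_subset.trans hn⟩

end MP3125f4
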