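import Pool.Agent.Work.MP_3125f4_gt.Defs

/-!
# MP_3125f4_gt : approximable real characters (definition)
-/

open Set Cardinal Topology Filter

universe u

namespace MP3125f4

variable {X : Type u} [TopologicalSpace X]

/-- A real character `e` of `C(K, ℝ)` is `ν`-approximable if for every set `S` of at most `ν`
continuous functions there is a sequence in `K` along which every `f ∈ S` converges to `e f`. -/
def Approximable (ν : Cardinal.{u}) (K : Set X) (e : C(K, ℝ) →+* ℝ) : Prop :=
  ∀ S : Set C(K, ℝ), #S ≤ ν →
    ∃ y : ℕ → K, ∀ f ∈ S, Tendsto (fun k => f (y k)) atTop (𝓝 (e f))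

end MP3125f4
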