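import Pool.Agent.Work.MP_3125f4_gt.G.Arith

/-!
# MP_3125f4_gt : the sequence argument, general form
(adapted from `Core.lean` of helper83)
-/

open Set Cardinal Topology

universe u

namespace MP3125f4

section core

variable {X : Type u} [TopologicalSpace X] {κ : Cardinal.{u}}

/-- `D` is a small set of points with disjoint neighbourhoods inside the `g d`. -/
def Good (κ : Cardinal.{u}) (Y : Set X) (g : X → Set X) (D : Set X) : Prop :=
  D ⊆ Y ∧ #D < κ ∧ ∃ U : X → Set X, (∀ d ∈ D, IsOpen (U d) ∧ d ∈ U d ∧ U d ⊆ g d) ∧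
    D.PairwiseDisjoint U

/-- `D'` extends `D`. -/
def Ext (g : X → Set X) (D D' : Set X) : Prop :=
  D ⊆ D' ∧ ∀ d ∈ D' \ D, d ∉ closure (⋃ e ∈ D, g e)

lemma good_iUnion (hreg : κ.IsRegular) (hunc : ℵ₀ < κ) {Y : Set X} {g : X → Set X}
    (D : ℕ → Set X) (hD : ∀ n, Good κ Y g (D n)) (hE : ∀ n, Ext g (D n) (D (n + 1))) :
    Good κ Y g (⋃ n, D n) := by
  classical
  have hmono : Monotone D := monotone_nat_of_le_succ fun n => (hE n).1
  choose U hU1 hU2 using fun n => (hD n).2.2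
  refine ⟨iUnion_subset fun n => (hD n).1, ?_, ?_⟩
  · have : (⋃ n, D n) = ⋃ n : ULift.{u} ℕ, D n.down := by
      ext x
      simp
    rw [this, card_iUnion_lt_iff_forall_of_isRegular hreg (by simpa using hunc)]
    exact fun n => (hD n.down).2.1
  · -- the first index at which a point appears
    let N : X → ℕ := fun x => if h : ∃ n, x ∈ D n then Nat.find h else 0
    have hN : ∀ x ∈ ⋃ n, D n, x ∈ D (N x) ∧ ∀ m < N x, x ∉ D m := by
      intro x hx
      have h : ∃ n, x ∈ D n := mem_iUnion.1 hx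
      have hNx : N x = Nat.find h := dif_pos h
      rw [hNx]
      exact ⟨Nat.find_spec h, fun m hm => Nat.find_min h hm⟩
    let V : ℕ → Set X := fun n => ⋃ e ∈ D n, g e
    refine ⟨fun x => U (N x) x \ (match N x with | 0 => ∅ | (m + 1) => closure (V m)), ?_, ?_⟩
    · intro d hd
      obtain ⟨h1, h2⟩ := hN d hd
      have h3 := hU1 (N d) d h1
      refine ⟨?_, ⟨h3.2.1, ?_⟩, sdiff_subset.trans h3.2.2⟩
      · apply h3.1.sdiff
        split
        · exact isClosed_empty
        · exact isClosed_closure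
      · split
        · simp
        · rename_i m hm
          have h1' : d ∈ D (m + 1) := by
            have h1' := h1
            rw [hm] at h1'
            exact h1'
          exact (hE m).2 d ⟨h1', h2 m (by rw [hm]; exact Nat.lt_succ_self m)⟩
    · -- pairwise disjoint
      have key : ∀ d ∈ ⋃ n, D n, ∀ d' ∈ ⋃ n, D n, N d < N d' →
          Disjoint (U (N d) d) (U (N d') d' \ (match N d' with | 0 => ∅ | (m + 1) => closure (V m))) := by
        intro d hd d' hd' hlt
        obtain ⟨m, hm⟩ : ∃ m, N d' = m + 1 := ⟨N d' - 1, by omega⟩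
        rw [hm]
        rw [Set.disjoint_left]
        rintro x hx ⟨-, hx'⟩
        apply hx'
        apply subset_closure
        have h1 : d ∈ D m := hmono (show N d ≤ m by omega) (hN d hd).1
        exact mem_biUnion h1 ((hU1 (N d) d (hN d hd).1).2.2 hx)
      intro d hd d' hd' hne
      rcases lt_trichotomy (N d) (N d') with h | h | h
      · exact (key d hd d' hd' h).mono_left sdiff_subset
      · have h1 : d ∈ D (N d) := (hN d hd).1
        have h2 : d' ∈ D (N d) := h ▸ (hN d' hd').1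
        have h3 := hU2 (N d) h1 h2 hne
        show Disjoint (U (N d) d \ _) (U (N d') d' \ _)
        refine Disjoint.mono sdiff_subset sdiff_subset ?_
        rw [← h]
        exact h3
      · exact ((key d' hd' d hd h).mono_left sdiff_subset).symm

variable [T4Space X] [FirstCountableTopology X]

/-- The sequence argument. -/
theorem core (hCL : CellularLindelof X) (hreg : κ.IsRegular) (hunc : ℵ₀ < κ)
    (Y : Set X)
    (𝒢 : Set (Set X)) (h𝒢 : ∀ G ∈ 𝒢, IsOpen G) (hempty : ∅ ∈ 𝒢)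
    (hB : ∀ y ∈ Y, ∀ V ∈ 𝓝 y, ∃ G ∈ 𝒢, y ∈ G ∧ G ⊆ V)
    (hw : ∀ 𝒱 ⊆ 𝒢, #𝒱 < κ → closure (⋃₀ 𝒱) ≠ Set.univ → ∃ y ∈ Y, y ∉ closure (⋃₀ 𝒱))
    (p : X) (hp : p ∉ closure Y)
    (P : ∀ D ⊆ Y, #D < κ → DisjSep D →
      ∃ N ∈ 𝓝 p, ∃ 𝒞 ⊆ 𝒢, #𝒞 ≤ κ ∧ closure D ⊆ ⋃₀ 𝒞 ∧ ∀ C ∈ 𝒞, Disjoint C N) : False := by
  classical
  obtain ⟨B, hB1, hB2, hB3, hB4⟩ := exists_base' X
  -- a basic neighbourhood of p with closure missing Y
  obtain ⟨k₀, hk₀⟩ : ∃ k₀, Disjoint (closure (B p k₀)) Y := by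
    have h1 : (closure Y)ᶜ ∈ 𝓝 p := isClosed_closure.isOpen_compl.mem_nhds hp
    obtain ⟨C, ⟨hC1, hC2⟩, hC3⟩ := (closed_nhds_basis p).mem_iff.1 h1
    obtain ⟨k, hk⟩ := hB4 p C hC1
    refine ⟨k, ?_⟩
    rw [Set.disjoint_left]
    intro x hx hxY
    exact hC3 (closure_minimal hk hC2 hx) (subset_closure hxY)
  -- the neighbourhoods g y
  have hg : ∀ y ∈ Y, ∃ G ∈ 𝒢, y ∈ G ∧ Disjoint G (B p k₀) := by
    intro y hy
    have h1 : (closure (B p k₀))ᶜ ∈ 𝓝 y := by
      apply isClosed_closure.isOpen_compl.mem_nhds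
      exact fun h => (Set.disjoint_left.1 hk₀) h hy
    obtain ⟨G, hG1, hG2, hG3⟩ := hB y hy _ h1
    refine ⟨G, hG1, hG2, ?_⟩
    rw [Set.disjoint_left]
    exact fun x hx hx' => hG3 hx (subset_closure hx')
  choose! g hg1 hg2 hg3 using hg
  -- covering
  let Cov : ℕ → Set X → Prop := fun k D =>
    ∃ 𝒞 ⊆ 𝒢, #𝒞 ≤ κ ∧ closure D ⊆ ⋃₀ 𝒞 ∧ ∀ C ∈ 𝒞, Disjoint C (B p k)
  have hCovk : ∀ {k k'} {D}, k ≤ k' → Cov k D → Cov k' D := by
    rintro k k' D hkk ⟨𝒞, h1, h2, h3, h4⟩
    exact ⟨𝒞, h1, h2, h3, fun C hC => (h4 C hC).mono_right (hB3 p hkk)⟩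
  have hCovD : ∀ {k} {D D'}, D ⊆ D' → Cov k D' → Cov k D := by
    rintro k D D' hDD ⟨𝒞, h1, h2, h3, h4⟩
    exact ⟨𝒞, h1, h2, (closure_mono hDD).trans h3, h4⟩
  have hCov : ∀ D, Good κ Y g D → ∃ k, Cov k D := by
    rintro D ⟨h1, h2, U, hU1, hU2⟩
    obtain ⟨N, hN, 𝒞, hC1, hC2, hC3, hC4⟩ := P D h1 h2 ⟨U, fun d hd => ⟨(hU1 d hd).1, (hU1 d hd).2.1⟩, hU2⟩
    obtain ⟨k, hk⟩ := hB4 p N hN
    exact ⟨k, 𝒞, hC1, hC2, hC3, fun C hC => (hC4 C hC).mono_right hk⟩
  have hgood0 : Good κ Y g ∅ := by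
    refine ⟨empty_subset _, ?_, fun _ => ∅, by simp, by simp⟩
    simpa using hreg.pos
  -- uniformity
  obtain ⟨k₁, D₀, hD₀, hk₁⟩ : ∃ k D₀, Good κ Y g D₀ ∧ ∀ D, Good κ Y g D → Ext g D₀ D → Cov k D := by
    by_contra hcon
    push Not at hcon
    choose! E hE1 hE2 hE3 using hcon
    let s : ℕ → Set X := fun n => Nat.rec ∅ (fun k D => E k D) n
    have hs : ∀ n, s (n + 1) = E n (s n) := fun n => rfl
    have hsg : ∀ n, Good κ Y g (s n) := by
      intro n
      induction n with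
      | zero => exact hgood0
      | succ n ih => rw [hs]; exact hE1 n _ ih
    have hu := good_iUnion hreg hunc s hsg (fun n => by rw [hs]; exact hE2 n _ (hsg n))
    obtain ⟨k, hk⟩ := hCov _ hu
    apply hE3 k (s k) (hsg k)
    rw [← hs]
    exact hCovD (subset_iUnion s (k + 1)) hk
  obtain ⟨k, hk1, hk0⟩ : ∃ k, k₁ ≤ k ∧ k₀ ≤ k := ⟨max k₁ k₀, le_max_left _ _, le_max_right _ _⟩
  have hk : ∀ D, Good κ Y g D → Ext g D₀ D → Cov k D := fun D h1 h2 => hCovk hk1 (hk₁ D h1 h2)
  -- enumerate the covers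
  have hc : ∀ D : Set X, ∃ c : κ.ord.ToType → Set X, Cov k D →
      (∀ l, c l ∈ 𝒢 ∧ Disjoint (c l) (B p k)) ∧ closure D ⊆ ⋃ l, c l := by
    intro D
    by_cases hD : Cov k D
    · obtain ⟨𝒞, h1, h2, h3, h4⟩ := hD
      have h5 : #(insert ∅ 𝒞 : Set (Set X)) ≤ #κ.ord.ToType := by
        refine mk_insert_le.trans ?_
        simp only [mk_toType, card_ord]
        exact add_le_of_le hreg.aleph0_le h2 (one_le_aleph0.trans hreg.aleph0_le)
      obtain ⟨f⟩ := h5
      obtain ⟨c, hc⟩ : ∃ c : κ.ord.ToType → (insert ∅ 𝒞 : Set (Set X)), Function.Surjective c :=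
        ⟨Function.invFun f, Function.invFun_surjective f.injective⟩
      refine ⟨fun l => c l, fun _ => ⟨fun l => ?_, ?_⟩⟩
      · show (c l : Set X) ∈ 𝒢 ∧ Disjoint (c l : Set X) (B p k)
        rcases (c l).2 with h | h
        · exact ⟨by rw [h]; exact hempty, by rw [h]; exact empty_disjoint _⟩
        · exact ⟨h1 h, h4 _ h⟩
      · intro x hx
        obtain ⟨C, hC, hxC⟩ := h3 hx
        obtain ⟨l, hl⟩ := hc ⟨C, Or.inr hC⟩
        refine mem_iUnion.2 ⟨l, ?_⟩
        rw [hl]; exact hxC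
    · exact ⟨fun _ => ∅, fun h => absurd h hD⟩
  choose c hc using hc
  -- the witness function
  have hw' : ∀ 𝒱 : Set (Set X), ∃ y, 𝒱 ⊆ 𝒢 → #𝒱 < κ → closure (⋃₀ 𝒱) ≠ Set.univ →
      y ∈ Y ∧ y ∉ closure (⋃₀ 𝒱) := by
    intro 𝒱
    by_cases h : 𝒱 ⊆ 𝒢 ∧ #𝒱 < κ ∧ closure (⋃₀ 𝒱) ≠ Set.univ
    · obtain ⟨y, h1, h2⟩ := hw 𝒱 h.1 h.2.1 h.2.2
      exact ⟨y, fun _ _ _ => ⟨h1, h2⟩⟩
    · exact ⟨p, fun h1 h2 h3 => absurd ⟨h1, h2, h3⟩ h⟩
  choose w hw' using hw'
  -- the recursion
  let DD : (κ.ord.ToType → X) → κ.ord.ToType → Set X := fun y i => D₀ ∪ y '' Iio i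
  let VV : (κ.ord.ToType → X) → κ.ord.ToType → Set (Set X) := fun y i =>
    g '' (DD y i) ∪ ⋃ j : Iio i, ⋃ l : Iio i, {c (DD y j) l}
  have : Nonempty X := ⟨p⟩
  obtain ⟨y, hy⟩ := exists_rec (I := κ.ord.ToType) (X := X) (fun i y z => z = w (VV y i))
    (by
      intro i f f' hff z hz
      have h1 : ∀ j ≤ i, DD f j = DD f' j := by
        intro j hj
        show D₀ ∪ f '' Iio j = D₀ ∪ f' '' Iio j
        congr 1
        apply image_congr
        intro m hm
        exact hff m (lt_of_lt_of_le hm hj)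
      have h2 : VV f i = VV f' i := by
        show g '' (DD f i) ∪ (⋃ j : Iio i, ⋃ l : Iio i, {c (DD f j) l}) =
          g '' (DD f' i) ∪ ⋃ j : Iio i, ⋃ l : Iio i, {c (DD f' j) l}
        rw [h1 i le_rfl]
        congr 1
        apply iUnion_congr
        intro j
        rw [h1 j j.2.le]
      rw [hz, h2])
    (fun i f => ⟨_, rfl⟩)
  let D : κ.ord.ToType → Set X := DD y
  let 𝒱 : κ.ord.ToType → Set (Set X) := VV y
  let W : κ.ord.ToType → Set X := fun i => ⋃₀ 𝒱 i
  have hDmono : ∀ {i j}, i ≤ j → D i ⊆ D j := by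
    intro i j hij
    exact union_subset_union_right _ (image_mono (Iio_subset_Iio hij))
  have h𝒱mono : ∀ {i j}, i ≤ j → 𝒱 i ⊆ 𝒱 j := by
    intro i j hij
    apply union_subset_union
    · exact image_mono (hDmono hij)
    · apply iUnion_subset
      intro a
      apply iUnion_subset
      intro b
      refine Subset.trans ?_ (subset_iUnion _ ⟨a.1, lt_of_lt_of_le a.2 hij⟩)
      refine Subset.trans ?_ (subset_iUnion _ ⟨b.1, lt_of_lt_of_le b.2 hij⟩)
      exact Subset.rfl
  have hWmono : ∀ {i j}, i ≤ j → W i ⊆ W j := fun hij => sUnion_mono (h𝒱mono hij)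
  have hgW : ∀ {i} {d}, d ∈ D i → g d ⊆ W i := by
    intro i d hd
    exact subset_sUnion_of_mem (Or.inl (mem_image_of_mem g hd))
  have hyD : ∀ {i j}, i < j → y i ∈ D j := fun hij => Or.inr (mem_image_of_mem y hij)
  -- small
  have hDsmall : ∀ i, #(D i) < κ := by
    intro i
    refine (mk_union_le _ _).trans_lt ?_
    refine add_lt_of_lt hreg.aleph0_le hD₀.2.1 ?_
    refine mk_image_le.trans_lt ?_
    simpa using mk_Iio_lt i
  have h𝒱small : ∀ i, #(𝒱 i) < κ := by
    intro i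
    have hi : #(Iio i) < κ := by simpa using mk_Iio_lt i
    refine (mk_union_le _ _).trans_lt ?_
    refine add_lt_of_lt hreg.aleph0_le (mk_image_le.trans_lt (hDsmall i)) ?_
    rw [card_iUnion_lt_iff_forall_of_isRegular hreg hi]
    intro a
    rw [card_iUnion_lt_iff_forall_of_isRegular hreg hi]
    intro b
    rw [mk_singleton]
    exact one_lt_aleph0.trans_le hreg.aleph0_le
  have : Nonempty κ.ord.ToType := by
    obtain ⟨i, -⟩ := exists_bound hreg (S := (∅ : Set κ.ord.ToType)) (by simpa using hreg.pos)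
    exact ⟨i⟩
  have goodOf : ∀ j, (∀ m < j, y m ∈ Y ∧ y m ∉ closure (W m)) →
      Good κ Y g (D j) ∧ Ext g D₀ (D j) := by
    intro j ih
    obtain ⟨U₀, hU1, hU2⟩ := hD₀.2.2
    refine ⟨⟨?_, hDsmall j, ?_⟩, subset_union_left, ?_⟩
    · rintro d (hd | ⟨m, hm, rfl⟩)
      · exact hD₀.1 hd
      · exact (ih m hm).1
    · have hex : ∀ d ∈ D j, d ∉ D₀ → ∃ m < j, y m = d := by
        rintro d (hd | ⟨m, hm, rfl⟩) hd'
        · exact absurd hd hd'
        · exact ⟨m, hm, rfl⟩
      choose! m hm1 hm2 using hex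
      refine ⟨fun d => if d ∈ D₀ then U₀ d else g d \ closure (W (m d)), ?_, ?_⟩
      · intro d hd
        by_cases hd0 : d ∈ D₀
        · simp only [hd0, if_true]
          exact hU1 d hd0
        · simp only [hd0, if_false]
          have h1 := ih (m d) (hm1 d hd hd0)
          rw [hm2 d hd hd0] at h1
          refine ⟨(h𝒢 _ (hg1 d h1.1)).sdiff isClosed_closure, ⟨hg2 d h1.1, h1.2⟩, sdiff_subset⟩
      · have key1 : ∀ d ∈ D₀, ∀ d' ∈ D j, d' ∉ D₀ →
            Disjoint (U₀ d) (g d' \ closure (W (m d'))) := by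
          intro d hd d' hd' hd'0
          rw [Set.disjoint_left]
          rintro x hx ⟨-, hx'⟩
          exact hx' (subset_closure (hgW (Or.inl hd) ((hU1 d hd).2.2 hx)))
        intro d hd d' hd' hne
        by_cases hd0 : d ∈ D₀
        · by_cases hd'0 : d' ∈ D₀
          · simp only [Function.onFun, hd0, hd'0, if_true]
            exact hU2 hd0 hd'0 hne
          · simp only [Function.onFun, hd0, hd'0, if_true, if_false]
            exact key1 d hd0 d' hd' hd'0
        · by_cases hd'0 : d' ∈ D₀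
          · simp only [Function.onFun, hd0, hd'0, if_true, if_false]
            exact (key1 d' hd'0 d hd hd0).symm
          · simp only [Function.onFun, hd0, hd'0, if_false]
            have key2 : ∀ e ∈ D j, e ∉ D₀ → ∀ e' ∈ D j, e' ∉ D₀ → m e < m e' →
                Disjoint (g e \ closure (W (m e))) (g e' \ closure (W (m e'))) := by
              intro e he he0 e' he' he'0 hlt
              rw [Set.disjoint_left]
              rintro x ⟨hx, -⟩ ⟨-, hx'⟩
              apply hx'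
              apply subset_closure
              apply hgW (i := m e') (d := e) ?_ hx
              have := hyD hlt
              rwa [hm2 e he he0] at this
            rcases lt_trichotomy (m d) (m d') with h | h | h
            · exact key2 d hd hd0 d' hd' hd'0 h
            · exfalso
              apply hne
              rw [← hm2 d hd hd0, ← hm2 d' hd' hd'0, h]
            · exact (key2 d' hd' hd'0 d hd hd0 h).symm
    · rintro d ⟨hd | ⟨m, hm, rfl⟩, hd'⟩
      · exact absurd hd hd'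
      · intro hcl
        apply (ih m hm).2
        refine closure_mono ?_ hcl
        apply iUnion₂_subset
        intro e he
        exact hgW (Or.inl he)
  -- the main induction
  have main : ∀ i, y i ∈ Y ∧ y i ∉ closure (W i) := by
    intro i
    induction i using WellFoundedLT.induction with
    | ind i ih =>
      have hgood : ∀ j ≤ i, Good κ Y g (D j) ∧ Ext g D₀ (D j) :=
        fun j hj => goodOf j fun m hm => ih m (lt_of_lt_of_le hm hj)
      have hcov : ∀ j ≤ i, Cov k (D j) := fun j hj => hk _ (hgood j hj).1 (hgood j hj).2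
      have hsub : 𝒱 i ⊆ 𝒢 := by
        rintro V (⟨d, hd, rfl⟩ | hV)
        · exact hg1 d ((hgood i le_rfl).1.1 hd)
        · simp only [mem_iUnion, mem_singleton_iff] at hV
          obtain ⟨j, l, rfl⟩ := hV
          exact ((hc (D j) (hcov j j.2.le)).1 l).1
      have hdis : ∀ V ∈ 𝒱 i, Disjoint V (B p k) := by
        rintro V (⟨d, hd, rfl⟩ | hV)
        · exact (hg3 d ((hgood i le_rfl).1.1 hd)).mono_right (hB3 p hk0)
        · simp only [mem_iUnion, mem_singleton_iff] at hV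
          obtain ⟨j, l, rfl⟩ := hV
          exact ((hc (D j) (hcov j j.2.le)).1 l).2
      have hpW : p ∉ closure (W i) := by
        rw [mem_closure_iff]
        push Not
        refine ⟨B p k, hB1 p k, hB2 p k, ?_⟩
        rw [← Set.disjoint_iff_inter_eq_empty]
        rw [Set.disjoint_sUnion_right]
        exact fun V hV => (hdis V hV).symm
      have hne : closure (⋃₀ 𝒱 i) ≠ Set.univ := by
        intro h
        apply hpW
        show p ∈ closure (⋃₀ 𝒱 i)
        rw [h]; trivial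
      have := hw' (𝒱 i) hsub (h𝒱small i) hne
      rw [hy i]
      exact this
  -- all the D i are covered
  have hgood : ∀ j, Good κ Y g (D j) ∧ Ext g D₀ (D j) := fun j => goodOf j fun m _ => main m
  have hcov : ∀ j, Cov k (D j) := fun j => hk _ (hgood j).1 (hgood j).2
  have h𝒱sub : ∀ i, 𝒱 i ⊆ 𝒢 := by
    rintro i V (⟨d, hd, rfl⟩ | hV)
    · exact hg1 d ((hgood i).1.1 hd)
    · simp only [mem_iUnion, mem_singleton_iff] at hV
      obtain ⟨j, l, rfl⟩ := hV
      exact ((hc (D j) (hcov j)).1 l).1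
  have hWopen : ∀ i, IsOpen (W i) := fun i => isOpen_sUnion fun V hV => h𝒢 V (h𝒱sub i hV)
  -- no maximum
  have hnomax : ∀ i : κ.ord.ToType, ∃ j, i < j := by
    intro i
    obtain ⟨j, hj⟩ := exists_bound hreg (S := {i}) (by
      rw [mk_singleton]; exact one_lt_aleph0.trans_le hreg.aleph0_le)
    exact ⟨j, hj i rfl⟩
  -- the closed set F
  let F : Set X := closure (range y)
  have hFW : F ⊆ ⋃ i, W i := by
    intro x hx
    obtain ⟨u, hu1, hu2⟩ := mem_closure_iff_seq_limit.1 hx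
    choose a ha using hu1
    obtain ⟨i, hi⟩ := exists_bound hreg (S := range a) (by
      refine lt_of_le_of_lt ?_ hunc
      exact (countable_range a).le_aleph0)
    have hx' : x ∈ closure (D i) := by
      refine mem_closure_of_tendsto hu2 (Filter.Eventually.of_forall fun n => ?_)
      rw [← ha n]
      exact hyD (hi _ (mem_range_self n))
    obtain ⟨l, hl⟩ := mem_iUnion.1 ((hc (D i) (hcov i)).2 hx')
    obtain ⟨j, hj⟩ := hnomax (max i l)
    refine mem_iUnion.2 ⟨j, ?_⟩
    refine mem_sUnion.2 ⟨c (D i) l, Or.inr ?_, hl⟩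
    simp only [mem_iUnion, mem_singleton_iff]
    exact ⟨⟨i, (le_max_left _ _).trans_lt hj⟩, ⟨l, (le_max_right _ _).trans_lt hj⟩, rfl⟩
  have hWU : IsOpen (⋃ i, W i) := isOpen_iUnion hWopen
  obtain ⟨O, hO1, hO2, hO3⟩ := normal_exists_closure_subset (isClosed_closure (s := range y)) hWU hFW
  -- the cells
  let U : κ.ord.ToType → Set X := fun i => (O ∩ g (y i)) \ closure (W i)
  have hUopen : ∀ i, IsOpen (U i) := fun i => (hO1.inter (h𝒢 _ (hg1 _ (main i).1))).sdiff isClosed_closure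
  have hUne : ∀ i, y i ∈ U i := fun i =>
    ⟨⟨hO2 (subset_closure (mem_range_self i)), hg2 _ (main i).1⟩, (main i).2⟩
  have hUdis : ∀ i j, i < j → Disjoint (U i) (U j) := by
    intro i j hij
    rw [Set.disjoint_left]
    rintro x ⟨⟨-, hx⟩, -⟩ ⟨-, hx'⟩
    exact hx' (subset_closure (hgW (hyD hij) hx))
  obtain ⟨L, hL1, hL2⟩ := hCL (range U) (by
      rintro _ ⟨i, rfl⟩
      exact ⟨hUopen i, ⟨y i, hUne i⟩⟩) (by
      rintro _ ⟨i, rfl⟩ _ ⟨j, rfl⟩ hne
      rcases lt_trichotomy i j with h | h | h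
      · exact hUdis i j h
      · exact absurd (by rw [h]) hne
      · exact (hUdis j i h).symm)
  have hL3 : IsLindelof (L ∩ closure O) := hL1.inter_right isClosed_closure
  obtain ⟨r, hr1, hr2⟩ := hL3.elim_countable_subcover W hWopen (inter_subset_right.trans hO3)
  obtain ⟨i, hi⟩ := exists_bound hreg (S := r) (lt_of_le_of_lt hr1.le_aleph0 hunc)
  obtain ⟨x, hxL, hxU⟩ := hL2 (U i) (mem_range_self i)
  have hxW : x ∈ W i := by
    have := hr2 ⟨hxL, subset_closure hxU.1.1⟩
    obtain ⟨j, hj, hxj⟩ := mem_iUnion₂.1 this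
    exact hWmono (hi j hj).le hxj
  exact hxU.2 (subset_closure hxW)

end core

end MP3125f4
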