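import Pool.Agent.Work.MP_3125f4_gt.G.Main

/-!
# MP_3125f4_gt : Kurepa families
-/

open Set Cardinal Topology Filter

universe u

namespace MP3125f4

/-- From families of sets to families of real functions. -/
theorem real_families_of_set_families {ν θ : Cardinal.{u}} (hθ : ℵ₀ ≤ θ)
    (h : ∀ (I : Type u) (F : Set (Set I)), #I ≤ θ →
      (∀ S : Set I, #S ≤ ν → #((fun B => B ∩ S) '' F) ≤ θ) → #F ≤ θ)
    (I : Type u) (F : Set (I → ℝ)) (hI : #I ≤ θ)
    (hF : ∀ S : Set I, #S ≤ ν → #(Set.range fun f : F => fun i : S => f.1 i) ≤ θ) : #F ≤ θ := by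
  classical
  let J : Type u := I × ULift.{u} ℚ
  have hJ : #J ≤ θ := by
    rw [mk_prod, lift_id, lift_id]
    have h1 : #(ULift.{u} ℚ) = ℵ₀ := by simp
    rw [h1]
    exact (mul_le_mul' hI hθ).trans (mul_eq_self hθ).le
  let φ : (I → ℝ) → Set J := fun f => {j | (j.2.down : ℝ) < f j.1}
  have hφ : Function.Injective φ := by
    intro f g hfg
    funext i
    by_contra hne
    rcases lt_or_gt_of_ne hne with hlt | hlt
    · obtain ⟨q, hq1, hq2⟩ := exists_rat_btwn hlt
      have h2 : ((i, ⟨q⟩) : J) ∈ φ g := hq2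
      rw [← hfg] at h2
      exact absurd (show (q : ℝ) < f i from h2) (not_lt.2 hq1.le)
    · obtain ⟨q, hq1, hq2⟩ := exists_rat_btwn hlt
      have h2 : ((i, ⟨q⟩) : J) ∈ φ f := hq2
      rw [hfg] at h2
      exact absurd (show (q : ℝ) < g i from h2) (not_lt.2 hq1.le)
  rw [← mk_image_eq (s := F) hφ]
  refine h J (φ '' F) hJ fun S hS => ?_
  let S1 : Set I := Prod.fst '' S
  have hS1 : #S1 ≤ ν := mk_image_le.trans hS
  -- the trace on `S` is determined by the restriction to `S1`
  have h3 : ((fun B => B ∩ S) '' (φ '' F)) ⊆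
      (fun r : (S1 → ℝ) => {j : J | ∃ hj : j ∈ S, (j.2.down : ℝ) < r ⟨j.1, ⟨j, hj, rfl⟩⟩}) ''
        (Set.range fun f : F => fun i : S1 => f.1 i) := by
    rintro _ ⟨_, ⟨f, hf, rfl⟩, rfl⟩
    refine ⟨_, ⟨⟨f, hf⟩, rfl⟩, ?_⟩
    ext j
    constructor
    · rintro ⟨hj, hlt⟩
      exact ⟨hlt, hj⟩
    · rintro ⟨hlt, hj⟩
      exact ⟨hj, hlt⟩
  exact (mk_le_mk_of_subset h3).trans (mk_image_le.trans (hF S1 hS1))

/-- If `c` is the successor of `ν`, it is enough to consider traces on initial segments. -/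
theorem set_families_of_trees {ν : Cardinal.{u}}
    (h : ∀ F : Set (Set (Order.succ ν).ord.ToType),
      (∀ a, #((fun B => B ∩ Iio a) '' F) ≤ Order.succ ν) → #F ≤ Order.succ ν)
    (I : Type u) (F : Set (Set I)) (hI : #I ≤ Order.succ ν)
    (hF : ∀ S : Set I, #S ≤ ν → #((fun B => B ∩ S) '' F) ≤ Order.succ ν) :
    #F ≤ Order.succ ν := by
  classical
  obtain ⟨em⟩ : Nonempty (I ↪ (Order.succ ν).ord.ToType) := by
    rw [← Cardinal.le_def, mk_ord_toType]
    exact hI
  have hinj : Function.Injective (fun B : Set I => em '' B) := em.injective.image_injective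
  rw [← mk_image_eq (s := F) hinj]
  refine h _ fun a => ?_
  let S : Set I := em ⁻¹' Iio a
  have hS : #S ≤ ν := by
    have h1 : #S ≤ #(Iio a) := mk_le_of_injective
      (f := fun s : S => (⟨em s.1, s.2⟩ : Iio a)) (by
        intro s t hst
        exact Subtype.ext (em.injective (congrArg Subtype.val hst)))
    exact Order.lt_succ_iff.1 (h1.trans_lt (mk_Iio_lt' _ a))
  have h2 : ((fun B => B ∩ Iio a) '' ((fun B : Set I => em '' B) '' F)) ⊆
      (fun B : Set I => em '' B) '' ((fun B => B ∩ S) '' F) := by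
    rintro _ ⟨_, ⟨B, hB, rfl⟩, rfl⟩
    refine ⟨_, ⟨B, hB, rfl⟩, ?_⟩
    exact image_inter_preimage em B (Iio a)
  exact (mk_le_mk_of_subset h2).trans (mk_image_le.trans (hF S hS))

variable {X : Type u} [TopologicalSpace X]

/-- no large Kurepa-type families: the space is small -/
theorem mk_le_of_no_kurepa [T1Space X] [NormalSpace X] [FirstCountableTopology X]
    (hCL : CellularLindelof X) {ν θ : Cardinal.{u}} (har : Arith ν θ)
    (h : ∀ (I : Type u) (F : Set (Set I)), #I ≤ θ →
      (∀ S : Set I, #S ≤ ν → #((fun B => B ∩ S) '' F) ≤ θ) → #F ≤ θ) : #X ≤ θ := by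
  have hT4 : T4Space X := {}
  refine closure_criterion hCL dense_univ har fun D _ _ hD => Or.inr ?_
  exact mk_approximable_le har hD
    (real_families_of_set_families har.aleph0_le h)

end MP3125f4
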